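import Mathlib
import Pool.Agent.MP_574b9b_nt.ab.Auto
import Pool.Agent.MP_574b9b_nt.ab.Unif

set_option autoImplicit false

namespace Pool.Agent.Results.MP_574b9b_nt.AutomataBarrier

/-- The `7 n + 1` map. -/
def g (n : ℕ) : ℕ := if n % 2 = 0 then n / 2 else 7 * n + 1

/-- Let `S` be a set recognised by a finite automaton in base `2 ^ i * 7 ^ j` such that no
trajectory starting in `S` meets the trajectory of `m`. Then among the first `K` terms of any
trajectory, if they are pairwise distinct, at most `ε K + C` are odd and in `S`. -/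
theorem result (i j : ℕ) (hij : 0 < i + j) (L : Language ℕ) (hL : L.IsRegular)
    (m : ℕ) (hm : 0 < m)
    (hS : ∀ s : ℕ, Nat.digits (2 ^ i * 7 ^ j) s ∈ L → ∀ k l : ℕ, g^[k] s ≠ g^[l] m)
    (ε : ℝ) (hε : 0 < ε) :
    ∃ C : ℝ, ∀ n K : ℕ, (∀ k l : ℕ, k < K → l < K → g^[k] n = g^[l] n → k = l) →
      (Set.ncard {k : ℕ | k < K ∧ Odd (g^[k] n) ∧
        Nat.digits (2 ^ i * 7 ^ j) (g^[k] n) ∈ L} : ℝ) ≤ ε * K + C := by
  have hb : 2 ≤ 2 ^ i * 7 ^ j := by
    have := Nat.lt_two_pow_self (n := i + j)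
    have := Nat.mul_le_mul_left (2 ^ i) (Nat.pow_le_pow_left (show 2 ≤ 7 by norm_num) j)
    rw [← pow_add] at this
    omega
  have e : g = Pool.Agent.MP_574b9b_nt.AB.g := rfl
  rw [e] at hS ⊢
  have t : Pool.Agent.MP_574b9b_nt.AB.Thin (2 ^ i * 7 ^ j)
      {s | Nat.digits (2 ^ i * 7 ^ j) s ∈ L} := by
    refine Pool.Agent.MP_574b9b_nt.AB.auto _ L hb hL fun u R hu => ?_
    obtain ⟨σ, z, h1, h2⟩ := Pool.Agent.MP_574b9b_nt.AB.pos i j m hij hm u R hu
    exact ⟨σ, z, h1, fun r z' a b c => h2 r z' a b (hS _ c)⟩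
  have f := Pool.Agent.MP_574b9b_nt.AB.unif hij t hε
  simp only [Set.mem_ofPred_eq] at f
  exact f

end Pool.Agent.Results.MP_574b9b_nt.AutomataBarrier
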