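import Mathlib
import Pool.Agent.MP_574b9b_nt.ab.Suff

set_option autoImplicit false

namespace Pool.Agent.Results.MP_574b9b_nt.AutomaticSufficient

/-- The `7 n + 1` map. -/
def g (n : ℕ) : ℕ := if n % 2 = 0 then n / 2 else 7 * n + 1

/-- A set recognised by a finite automaton in any base `b ≥ 2` whose counting function is not
`O (X ^ (1 - δ))` for any `δ > 0` has infinitely many members whose trajectory meets the
trajectory of a given positive integer `m`. -/
theorem result (b : ℕ) (hb : 2 ≤ b) (L : Language ℕ) (hL : L.IsRegular)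
    (hbig : ∀ δ C : ℝ, 0 < δ → ∃ X : ℕ,
      C * (X : ℝ) ^ (1 - δ) < (Set.ncard {s : ℕ | s < X ∧ Nat.digits b s ∈ L} : ℝ))
    (m : ℕ) (hm : 0 < m) :
    Set.Infinite {s : ℕ | Nat.digits b s ∈ L ∧ ∃ k l : ℕ, g^[k] s = g^[l] m} := by
  have e : g = Pool.Agent.MP_574b9b_nt.AB.g := rfl
  rw [e]
  intro h
  obtain ⟨A, hA⟩ := h.bddAbove
  obtain ⟨δ, C, h1, h2⟩ := Pool.Agent.MP_574b9b_nt.AB.suff b hb L hL m hm A
    fun s a c k l d => absurd (hA ⟨c, k, l, d⟩) (not_le.2 a)
  obtain ⟨X, hX⟩ := hbig δ C h1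
  exact absurd (h2 X) (not_le.2 hX)

end Pool.Agent.Results.MP_574b9b_nt.AutomaticSufficient
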