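import Mathlib
import Pool.Agent.MP_574b9b_nt.TwoLog

set_option autoImplicit false

namespace Pool.Agent.Results.MP_574b9b_nt.BeyondHorizon

/-- The `q n + 1` map. -/
def g (q n : ℕ) : ℕ := if n % 2 = 0 then n / 2 else q * n + 1

/-- For odd `q ≥ 5` the trajectory of all but `C N ^ (1 - δ)` of the `n < N` exceeds
`n ^ (log q / log 4 + ε)`. -/
theorem result (q : ℕ) (hq : Odd q) (h5 : 5 ≤ q) :
    ∃ ε δ C : ℝ, 0 < ε ∧ 0 < δ ∧ ∀ N : ℕ,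
      (Set.ncard {n : ℕ | n < N ∧ ∀ k : ℕ,
        (((g q)^[k] n : ℕ) : ℝ) ≤ (n : ℝ) ^ (Real.log q / Real.log 4 + ε)} : ℝ) ≤
        C * (N : ℝ) ^ (1 - δ) := by
  classical
  obtain ⟨ε, δ, C, h1, h2, h3⟩ := Pool.Agent.MP_574b9b_nt.final_of
    (Pool.Agent.MP_574b9b_nt.core (Pool.Agent.MP_574b9b_nt.win Pool.Agent.MP_574b9b_nt.twoLog)) hq h5
  refine ⟨ε, δ, C, h1, h2, fun N => le_trans (le_of_eq ?_) (h3 N)⟩
  rw [← Set.ncard_coe_finset]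
  congr 2
  ext n
  simp only [Set.mem_ofPred_eq, Finset.coe_filter, Finset.mem_range]
  rfl

end Pool.Agent.Results.MP_574b9b_nt.BeyondHorizon
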